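import Pool.Agent.S4L.Defs

/-!
# Local certification

`cert_fooling`: if a local verifier accepts `A S ++ P ++ B S` for all `S`, where the vertices of
`A S` are far to the left and those of `B S` are far to the right, then the labels of the vertices of
`P` near the middle determine `S`.
-/

set_option autoImplicit false

namespace Pool.Agent.S4L

theorem ball_vertex {K : List (List ℕ)} {v : ℕ} (hv : ∃ s ∈ K, v ∈ s) (r : ℕ) :
    ∀ w ∈ Ball K r v, ∃ s ∈ K, w ∈ s := by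
  induction r with
  | zero =>
    intro w hw
    have : w = v := hw
    rw [this]
    exact hv
  | succ r ih =>
    rintro w ⟨u, hu, h | ⟨s, hs, -, hw⟩⟩
    · rw [h]
      exact ih u hu
    · exact ⟨s, hs, hw⟩

/-- The balls only depend on the lists which meet the half space `h ≤ m + r D`. -/
theorem ball_eq {K K' : List (List ℕ)} (h : ℕ → ℤ) (D m : ℤ) (hD : 0 ≤ D) (r : ℕ)
    (hd : ∀ s ∈ K, ∀ u ∈ s, ∀ w ∈ s, h w ≤ h u + D)
    (he : ∀ s : List ℕ, ∀ u ∈ s, h u ≤ m + r * D → (s ∈ K ↔ s ∈ K')) {v : ℕ} (hv : h v ≤ m)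
    (j : ℕ) (hj : j ≤ r) :
    Ball K j v = Ball K' j v ∧ ∀ w ∈ Ball K j v, h w ≤ m + j * D := by
  induction j with
  | zero =>
    refine ⟨rfl, fun w hw => ?_⟩
    have : w = v := hw
    rw [this]
    simpa using hv
  | succ j ih =>
    obtain ⟨h1, h2⟩ := ih (by omega)
    have hjr : (j : ℤ) * D ≤ r * D := by
      apply mul_le_mul_of_nonneg_right _ hD
      exact_mod_cast (by omega : j ≤ r)
    refine ⟨?_, ?_⟩
    · ext w
      constructor
      · rintro ⟨u, hu, hw | ⟨s, hs, hus, hws⟩⟩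
        · exact ⟨u, h1 ▸ hu, Or.inl hw⟩
        · exact ⟨u, h1 ▸ hu, Or.inr ⟨s, (he s u hus (by linarith [h2 u hu])).1 hs, hus, hws⟩⟩
      · rintro ⟨u, hu, hw | ⟨s, hs, hus, hws⟩⟩
        · exact ⟨u, h1.symm ▸ hu, Or.inl hw⟩
        · have hu' : u ∈ Ball K j v := h1.symm ▸ hu
          exact ⟨u, hu', Or.inr ⟨s, (he s u hus (by linarith [h2 u hu'])).2 hs, hus, hws⟩⟩
    · rintro w ⟨u, hu, hw | ⟨s, hs, hus, hws⟩⟩
      · rw [hw]
        have := h2 u hu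
        push_cast
        nlinarith
      · have h3 := h2 u hu
        have h4 := hd s hs u hus w hws
        push_cast
        nlinarith

/-- The vertices on the left. -/
theorem sameView {Λ : Type} {K K' : List (List ℕ)} (h : ℕ → ℤ) (D m : ℤ) (hD : 0 ≤ D) (r : ℕ)
    (hd : ∀ s ∈ K, ∀ u ∈ s, ∀ w ∈ s, h w ≤ h u + D)
    (he : ∀ s : List ℕ, ∀ u ∈ s, h u ≤ m + r * D → (s ∈ K ↔ s ∈ K')) {v : ℕ} (hv : h v ≤ m)
    (hK : ∃ s ∈ K, v ∈ s) (l l' : ℕ → Λ)
    (hl : ∀ w, (∃ s ∈ K, w ∈ s) → h w ≤ m + r * D → l w = l' w) : SameView r K K' l l' v := by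
  obtain ⟨h1, h2⟩ := ball_eq h D m hD r hd he hv r le_rfl
  refine ⟨h1, fun s hs hw => ?_, fun w hw => hl w (ball_vertex hK r w hw) (h2 w hw)⟩
  obtain ⟨u, hu⟩ := List.exists_mem_of_ne_nil s hs
  exact he s u hu (h2 u (hw u hu))

open Classical in
theorem cut_paste {Λ : Type} {r : ℕ} (V : Verifier r Λ) {A A' P B B' : List (List ℕ)} (h : ℕ → ℤ)
    (D m : ℤ) (hD : 0 ≤ D)
    (dA : ∀ s ∈ A, ∀ u ∈ s, ∀ w ∈ s, h w ≤ h u + D)
    (dP : ∀ s ∈ P, ∀ u ∈ s, ∀ w ∈ s, h w ≤ h u + D)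
    (dB : ∀ s ∈ B', ∀ u ∈ s, ∀ w ∈ s, h w ≤ h u + D)
    (hA : ∀ s ∈ A, ∀ w ∈ s, h w < m - r * D) (hA' : ∀ s ∈ A', ∀ w ∈ s, h w < m - r * D)
    (hB : ∀ s ∈ B, ∀ w ∈ s, m + r * D < h w) (hB' : ∀ s ∈ B', ∀ w ∈ s, m + r * D < h w)
    (l l' : ℕ → Λ)
    (hl : ∀ s ∈ P, ∀ w ∈ s, m - r * D ≤ h w → h w ≤ m + r * D → l w = l' w)
    (h1 : ∀ v, (∃ s ∈ A ++ P ++ B, v ∈ s) → V.ok (A ++ P ++ B) l v)
    (h2 : ∀ v, (∃ s ∈ A' ++ P ++ B', v ∈ s) → V.ok (A' ++ P ++ B') l' v) :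
    V.Certifies (A ++ P ++ B') := by
  have hrD : (0 : ℤ) ≤ r * D := by positivity
  have hd : ∀ s ∈ A ++ P ++ B', ∀ u ∈ s, ∀ w ∈ s, h w ≤ h u + D := by
    intro s hs
    rcases List.mem_append.1 hs with hs | hs
    · rcases List.mem_append.1 hs with hs | hs
      · exact dA s hs
      · exact dP s hs
    · exact dB s hs
  have eL : ∀ s : List ℕ, ∀ u ∈ s, h u ≤ m + r * D → (s ∈ A ++ P ++ B' ↔ s ∈ A ++ P ++ B) := by
    intro s u hu hm
    have b1 : s ∉ B := fun hs => absurd (hB s hs u hu) (not_lt.2 hm)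
    have b2 : s ∉ B' := fun hs => absurd (hB' s hs u hu) (not_lt.2 hm)
    simp only [List.mem_append, b1, b2]
  have eR : ∀ s : List ℕ, ∀ u ∈ s, -h u ≤ -m + r * D →
      (s ∈ A ++ P ++ B' ↔ s ∈ A' ++ P ++ B') := by
    intro s u hu hm
    have b1 : s ∉ A := fun hs => absurd (hA s hs u hu) (not_lt.2 (by linarith))
    have b2 : s ∉ A' := fun hs => absurd (hA' s hs u hu) (not_lt.2 (by linarith))
    simp only [List.mem_append, b1, b2, false_or]
  have hPm : ∀ w, (∃ s ∈ A ++ P ++ B', w ∈ s) → m - r * D ≤ h w → h w ≤ m + r * D →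
      l w = l' w := by
    rintro w ⟨s, hs, hw⟩ g1 g2
    rcases List.mem_append.1 hs with hs | hs
    · rcases List.mem_append.1 hs with hs | hs
      · exact absurd (hA s hs w hw) (not_lt.2 g1)
      · exact hl s hs w hw g1 g2
    · exact absurd (hB' s hs w hw) (not_lt.2 g2)
  refine ⟨fun w => if h w ≤ m then l w else l' w, fun v hv => ?_⟩
  by_cases hm : h v ≤ m
  · refine (V.isLocal _ _ _ _ v (sameView h D m hD r hd eL hm hv _ l ?_)).2 (h1 v ?_)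
    · intro w hw hwm
      by_cases hwm' : h w ≤ m
      · rw [if_pos hwm']
      · rw [if_neg hwm']
        exact (hPm w hw (by linarith) hwm).symm
    · obtain ⟨s, hs, hvs⟩ := hv
      exact ⟨s, (eL s v hvs (by linarith)).1 hs, hvs⟩
  · refine (V.isLocal _ _ _ _ v (sameView (fun w => -h w) D (-m) hD r ?_ eR ?_ hv _ l' ?_)).2
      (h2 v ?_)
    · intro s hs u hu w hw
      have := hd s hs w hw u hu
      show -h w ≤ -h u + D
      linarith
    · show -h v ≤ -m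
      linarith
    · intro w hw hwm
      by_cases hwm' : h w ≤ m
      · rw [if_pos hwm']
        exact hPm w hw (by linarith) (by linarith)
      · rw [if_neg hwm']
    · obtain ⟨s, hs, hvs⟩ := hv
      exact ⟨s, (eR s v hvs (by linarith)).1 hs, hvs⟩

theorem cert_fooling {ι Λ Q : Type} [Finite Λ] [Finite Q] {r : ℕ} (V : Verifier r Λ)
    (A B : ι → List (List ℕ)) (P : List (List ℕ)) (h : ℕ → ℤ) (D m : ℤ) (hD : 0 ≤ D)
    (dA : ∀ S, ∀ s ∈ A S, ∀ u ∈ s, ∀ w ∈ s, h w ≤ h u + D)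
    (dP : ∀ s ∈ P, ∀ u ∈ s, ∀ w ∈ s, h w ≤ h u + D)
    (dB : ∀ S, ∀ s ∈ B S, ∀ u ∈ s, ∀ w ∈ s, h w ≤ h u + D)
    (hA : ∀ S, ∀ s ∈ A S, ∀ w ∈ s, h w < m - r * D)
    (hB : ∀ S, ∀ s ∈ B S, ∀ w ∈ s, m + r * D < h w) (q : Q → ℕ)
    (hQ : ∀ s ∈ P, ∀ w ∈ s, m - r * D ≤ h w → h w ≤ m + r * D → ∃ x, q x = w)
    (hacc : ∀ S, V.Certifies (A S ++ P ++ B S))
    (hrej : ∀ S T, V.Certifies (A S ++ P ++ B T) → V.Certifies (A T ++ P ++ B S) → S = T) :
    Nat.card ι ≤ Nat.card Λ ^ Nat.card Q := by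
  choose l hl using hacc
  have hinj : Function.Injective fun (S : ι) (x : Q) => l S (q x) := by
    intro S T hST
    have h1 : ∀ s ∈ P, ∀ w ∈ s, m - r * D ≤ h w → h w ≤ m + r * D → l S w = l T w := by
      intro s hs w hw g1 g2
      obtain ⟨x, rfl⟩ := hQ s hs w hw g1 g2
      exact congrFun hST x
    exact hrej S T
      (cut_paste V h D m hD (dA S) dP (dB T) (hA S) (hA T) (hB S) (hB T) (l S) (l T) h1 (hl S)
        (hl T))
      (cut_paste V h D m hD (dA T) dP (dB S) (hA T) (hA S) (hB T) (hB S) (l T) (l S)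
        (fun s hs w hw g1 g2 => (h1 s hs w hw g1 g2).symm) (hl T) (hl S))
  have h1 := Nat.card_le_card_of_injective _ hinj
  rw [Nat.card_fun] at h1
  exact h1

end Pool.Agent.S4L
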