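import Pool.Agent.S4L.Pts

/-!
# The triangulation of a text with a middle part of separators
-/

set_option autoImplicit false

namespace Pool.Agent.S4L

open Pool.Agent.S4H Pool.Agent.T4 Pool.Agent.T4B

/-- The vertex lists of the beginning and of the letters of `u`. -/
noncomputable def pA (u : List Sy) : List (List ℕ) :=
  prt 0 tabS ++ (List.range u.length).flatMap fun j => prt (224 * j) (tabM (u.getD j .sep))

/-- The vertex lists of `L` separators after `n` letters. -/
noncomputable def pP (n L : ℕ) : List (List ℕ) :=
  (List.range L).flatMap fun j => prt (224 * (n + j)) (tabM .sep)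

/-- The vertex lists of the letters of `v` after `n` letters, and of the end. -/
noncomputable def pB (n : ℕ) (v : List Sy) : List (List ℕ) :=
  ((List.range v.length).flatMap fun j => prt (224 * (n + j)) (tabM (v.getD j .sep))) ++
    prt (224 * (n + v.length)) tabE

theorem triangB_pad {n : ℕ} {u : List Sy} (L : ℕ) (v : List Sy) (hu : u.length = n) :
    triangB (u ++ (List.replicate L Sy.sep ++ v)) = pA u ++ pP n L ++ pB (n + L) v := by
  subst hu
  unfold triangB pA pP pB
  have e1 : ((List.range (u.length + (L + v.length))).flatMap fun j =>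
      prt (224 * j) (tabM ((u ++ (List.replicate L Sy.sep ++ v)).getD j .sep))) =
      ((List.range u.length).flatMap fun j => prt (224 * j) (tabM (u.getD j .sep))) ++
      (((List.range L).flatMap fun j => prt (224 * (u.length + j)) (tabM .sep)) ++
        ((List.range v.length).flatMap fun j =>
          prt (224 * (u.length + L + j)) (tabM (v.getD j .sep)))) := by
    rw [List.range_add, List.range_add, List.map_append, List.flatMap_append, List.flatMap_append,
      List.flatMap_map, List.flatMap_map, List.flatMap_map]
    refine congrArg₂ (fun a b => a ++ b) (List.flatMap_congr fun j hj => ?_)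
      (congrArg₂ (fun a b => a ++ b) (List.flatMap_congr fun j hj => ?_)
        (List.flatMap_congr fun j hj => ?_))
    · rw [List.getD_append _ _ _ _ (List.mem_range.1 hj)]
    · have hj' := List.mem_range.1 hj
      have e2 : (u ++ (List.replicate L Sy.sep ++ v)).getD (u.length + j) Sy.sep = Sy.sep := by
        rw [List.getD_append_right _ _ _ _ (by omega), Nat.add_sub_cancel_left,
          List.getD_append _ _ _ _ (by rw [List.length_replicate]; exact hj'),
          List.getD_eq_getElem _ _ (by rw [List.length_replicate]; exact hj'),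
          List.getElem_replicate]
      rw [e2]
    · have e2 : (u ++ (List.replicate L Sy.sep ++ v)).getD (u.length + (L + j)) Sy.sep =
          v.getD j Sy.sep := by
        rw [List.getD_append_right _ _ _ _ (by omega), Nat.add_sub_cancel_left,
          List.getD_append_right _ _ _ _ (by rw [List.length_replicate]; omega),
          List.length_replicate, Nat.add_sub_cancel_left]
      rw [e2, Nat.add_assoc u.length L j]
  rw [List.length_append, List.length_append, List.length_replicate, e1, ← Nat.add_assoc]
  simp only [List.append_assoc]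

theorem mem_prt {D : ℕ} {L : List (Fin 5 → Fin 5 → ℕ)} {s : List ℕ} (hs : s ∈ prt D L) {w : ℕ}
    (hw : w ∈ s) : ∃ g ∈ L, ∃ m, w = cdp D D (g m) := by
  unfold prt at hs
  obtain ⟨g, hg, rfl⟩ := List.mem_map.1 hs
  obtain ⟨m, rfl⟩ := (List.mem_ofFn' _ _).1 hw
  exact ⟨g, hg, m, rfl⟩

theorem mem_flatMap_range {n : ℕ} {f : ℕ → List (List ℕ)} {s : List ℕ}
    (hs : s ∈ (List.range n).flatMap f) : ∃ j < n, s ∈ f j := by
  obtain ⟨j, hj, h⟩ := List.mem_flatMap.1 hs
  exact ⟨j, List.mem_range.1 hj, h⟩

variable {B : ℕ} (hM : ∀ a, BdT B (tabM a))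

/-- The codes of the possible vertices of the middle part. -/
def cQ (n : ℕ) {L B : ℕ} (x : Fin L × (Fin 5 → Fin (B + 1))) : ℕ :=
  cdp (224 * (n + x.1.val)) (224 * (n + x.1.val)) fun r => (x.2 r).val

include hM in
theorem cQ_surj (n L : ℕ) : ∀ s ∈ pP n L, ∀ w ∈ s, ∃ x : Fin L × (Fin 5 → Fin (B + 1)),
    cQ n x = w := by
  intro s hs w hw
  obtain ⟨j, hj, hs⟩ := mem_flatMap_range hs
  obtain ⟨g, hg, m, rfl⟩ := mem_prt hs hw
  exact ⟨(⟨j, hj⟩, fun r => ⟨g m r, Nat.lt_succ_of_le (hM _ g hg m r)⟩), rfl⟩

end Pool.Agent.S4L
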