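import Pool.Agent.T4B.NtMain

/-!
# Texts with large fooling sets

`dvd_uv`: for the texts `uT S ++ vT T`, where `S`, `T` are lists of `n` bits, the divisibility
`y ∣ x` holds if `S = T`, and it does not hold for both `(S, T)` and `(T, S)` if `S ≠ T`.
`dvd_eq`: for the texts `uH S ++ vH T` the divisibility `y ∣ x` holds iff `S ≠ T`.
-/

set_option autoImplicit false

namespace Pool.Agent.S4L

open Pool.Agent.S4H Pool.Agent.T4 Pool.Agent.T4B

theorem fermat_dvd_cofac {l : List Bool} {k : ℕ} (hk : k < l.length) (h : l.getD k false = true) :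
    Nat.fermatNumber (k + 1) ∣ cofac l := by
  unfold cofac
  refine Dvd.dvd.mul_left ?_ 3
  have h1 := Finset.dvd_prod_of_mem
    (fun k => if l.getD k false then Nat.fermatNumber (k + 1) else 1) (Finset.mem_range.2 hk)
  simpa only [h, if_true] using h1

theorem getD_of_cofac {S T : List Bool} (h : S.length = T.length) (hd : cofac S ∣ cofac T) {k : ℕ}
    (hk : k < S.length) (hS : S.getD k false = true) : T.getD k false = true := by
  refine (dvd_cofac (n := S.length) rfl h.symm dvd_rfl).1 hd k hk fun hc => ?_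
  have h1 := Nat.Coprime.eq_one_of_dvd hc.symm (fermat_dvd_cofac hk hS)
  have h2 := Nat.three_le_fermatNumber (k + 1)
  omega

theorem cofac_inj {S T : List Bool} (h : S.length = T.length) (he : cofac S = cofac T) : S = T := by
  refine List.ext_getElem h fun k h1 h2 => ?_
  have e1 := fun hS => getD_of_cofac h (he ▸ dvd_rfl) h1 hS
  have e2 := fun hT => getD_of_cofac h.symm (he ▸ dvd_rfl) h2 hT
  rw [List.getD_eq_getElem _ _ h1, List.getD_eq_getElem _ _ h2] at e1
  rw [List.getD_eq_getElem _ _ h1, List.getD_eq_getElem _ _ h2] at e2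
  cases hS : S[k] <;> cases hT : T[k]
  · rfl
  · rw [e2 hT] at hS
    exact absurd hS (by decide)
  · rw [e1 hS] at hT
    exact absurd hT (by decide)
  · rfl

/-- The first part of the text. -/
def uT (S : List Bool) : List Sy := rowT S 1 0

/-- The second part of the text. -/
def vT (T : List Bool) : List Sy := rowT T 0 1

theorem run_uv (S T : List Bool) : (run (uT S ++ vT T)).y = 2 ^ cofac S - 1 ∧
    (run (uT S ++ vT T)).x = 2 ^ cofac T - 1 := by
  unfold run uT vT
  rw [List.foldl_append, run_rowT, run_rowT]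
  constructor
  · show (2 ^ cofac T - 1) ^ 0 * ((2 ^ cofac S - 1) ^ 1 * 1) = _
    rw [pow_zero, one_mul, pow_one, mul_one]
  · show (2 ^ cofac T - 1) ^ 1 * ((2 ^ cofac S - 1) ^ 0 * 1) = _
    rw [pow_zero, pow_one, mul_one, mul_one]

theorem dvd_uv (S : List Bool) : (run (uT S ++ vT S)).y ∣ (run (uT S ++ vT S)).x := by
  rw [(run_uv S S).1, (run_uv S S).2]

theorem eq_of_dvd {S T : List Bool} (h : S.length = T.length)
    (h1 : (run (uT S ++ vT T)).y ∣ (run (uT S ++ vT T)).x)
    (h2 : (run (uT T ++ vT S)).y ∣ (run (uT T ++ vT S)).x) : S = T := by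
  rw [(run_uv S T).1, (run_uv S T).2] at h1
  rw [(run_uv T S).1, (run_uv T S).2] at h2
  have h3 := Nat.dvd_antisymm h1 h2
  have h4 : 1 ≤ 2 ^ cofac S := Nat.one_le_two_pow
  have h5 : 1 ≤ 2 ^ cofac T := Nat.one_le_two_pow
  exact cofac_inj h (Nat.pow_right_injective le_rfl (show 2 ^ cofac S = 2 ^ cofac T by omega))

end Pool.Agent.S4L
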