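import Pool.Agent.T4B.NtMain

/-!
# Texts for the complement

`uH S ++ vH T` is the text of the hitting set instance with the sets `{2 i + S i}` and `{2 i + T i}`,
where at most `k` elements are allowed: there is a hitting set iff `S = T`.
-/

set_option autoImplicit false

namespace Pool.Agent.S4L

open Pool.Agent.S4H Pool.Agent.T4 Pool.Agent.T4B

variable {k : ℕ}

/-- The element of the set number `i`. -/
def el (S : Fin k → Bool) (i : Fin k) : ℕ := 2 * i.val + if S i then 1 else 0

theorem el_lt (S : Fin k → Bool) (i : Fin k) : el S i < 2 * k := by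
  unfold el
  have := i.2
  split_ifs <;> omega

theorem el_inj {S T : Fin k → Bool} {i j : Fin k} (h : el S i = el T j) : i = j ∧ S i = T i := by
  unfold el at h
  have h1 : i = j := by
    apply Fin.ext
    split_ifs at h <;> omega
  subst h1
  refine ⟨rfl, ?_⟩
  cases h2 : S i <;> cases h3 : T i <;> simp [h2, h3] at h ⊢

/-- The incidence of the sets. -/
def fH (S : Fin k → Bool) (i : Fin k) (v : Fin (k + (k - 1) + 1)) : Bool := decide (v.val = el S i)

/-- The row of a set. -/
def rowH (S : Fin k → Bool) (i : Fin k) : List Sy :=
  rowT (List.ofFn fun v => !(fH S i v)) 0 (k + (k - 1) + 1)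

/-- The rows of the sets. -/
def rowsH (S : Fin k → Bool) : List Sy := (List.ofFn (rowH S)).flatten

/-- The first part of the text. -/
def uH (S : Fin k → Bool) : List Sy :=
  ((List.range (k + (k - 1) + 1)).flatMap fun v =>
    rowT ((List.range (k + (k - 1) + 1)).map fun u => decide (u ≠ v)) 1 0) ++
  (rowT (List.replicate (k + (k - 1) + 1) true) 0 (k - 1) ++ rowsH S)

/-- The second part of the text. -/
def vH (T : Fin k → Bool) : List Sy := rowsH T

/-- The instance. -/
def insH (S T : Fin k → Bool) : HSet where
  a := k
  b := k - 1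
  m := k + k
  inc := Fin.append (fH S) (fH T)

theorem inc_left (S T : Fin k → Bool) (i : Fin k) :
    (insH S T).inc (Fin.castAdd k i) = fH S i := Fin.append_left (fH S) (fH T) i

theorem inc_right (S T : Fin k → Bool) (i : Fin k) :
    (insH S T).inc (Fin.natAdd k i) = fH T i := Fin.append_right (fH S) (fH T) i

theorem text_insH (S T : Fin k → Bool) : (insH S T).text = uH S ++ vH T := by
  have h1 : (List.ofFn fun j => rowT (List.ofFn fun v => !((insH S T).inc j v)) 0
      ((insH S T).a + (insH S T).b + 1)).flatten = rowsH S ++ rowsH T := by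
    have h2 : (fun j : Fin (k + k) => rowT (List.ofFn fun v => !((insH S T).inc j v)) 0
        ((insH S T).a + (insH S T).b + 1)) = Fin.append (rowH S) (rowH T) := by
      funext j
      refine Fin.addCases (fun i => ?_) (fun i => ?_) j
      · rw [Fin.append_left, inc_left]
        rfl
      · rw [Fin.append_right, inc_right]
        rfl
    have h3 : (List.ofFn fun j : Fin (k + k) => rowT (List.ofFn fun v => !((insH S T).inc j v)) 0
        ((insH S T).a + (insH S T).b + 1)).flatten = rowsH S ++ rowsH T := by
      rw [h2, List.ofFn_fin_append, List.flatten_append]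
      rfl
    exact h3
  unfold HSet.text
  rw [h1]
  unfold uH vH
  rw [List.append_assoc, List.append_assoc]
  rfl

theorem holds_insH (S T : Fin k → Bool) (hk : 0 < k) : (insH S T).Holds ↔ S = T := by
  constructor
  · rintro ⟨D, hD, h⟩
    have hS : ∀ i, ∃ v ∈ D, v.val = el S i := by
      intro i
      obtain ⟨v, hv, h1⟩ := h (Fin.castAdd k i)
      refine ⟨v, hv, ?_⟩
      rw [inc_left] at h1
      exact of_decide_eq_true h1
    have hT : ∀ i, ∃ v ∈ D, v.val = el T i := by
      intro i
      obtain ⟨v, hv, h1⟩ := h (Fin.natAdd k i)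
      refine ⟨v, hv, ?_⟩
      rw [inc_right] at h1
      exact of_decide_eq_true h1
    have hDS : D.image (fun v => v.val) = Finset.univ.image (el S) := by
      symm
      apply Finset.eq_of_subset_of_card_le
      · intro x hx
        obtain ⟨i, -, rfl⟩ := Finset.mem_image.1 hx
        obtain ⟨v, hv, h1⟩ := hS i
        exact Finset.mem_image.2 ⟨v, hv, h1⟩
      · rw [Finset.card_image_of_injective _ fun i j h => (el_inj h).1]
        refine Finset.card_image_le.trans (hD.trans ?_)
        rw [Finset.card_univ, Fintype.card_fin]
        rfl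
    funext i
    obtain ⟨v, hv, h1⟩ := hT i
    have h2 : el T i ∈ D.image (fun v => v.val) := Finset.mem_image.2 ⟨v, hv, h1⟩
    rw [hDS] at h2
    obtain ⟨j, -, hj⟩ := Finset.mem_image.1 h2
    obtain ⟨rfl, h3⟩ := el_inj hj
    exact h3
  · rintro rfl
    have hlt : ∀ i, el S i < k + (k - 1) + 1 := fun i => by
      have := el_lt S i
      omega
    refine ⟨Finset.univ.image fun i => (⟨el S i, hlt i⟩ : Fin (k + (k - 1) + 1)), ?_, ?_⟩
    · refine Finset.card_image_le.trans ?_
      rw [Finset.card_univ, Fintype.card_fin]
      rfl
    · intro j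
      refine Fin.addCases (fun i => ?_) (fun i => ?_) j
      · refine ⟨⟨el S i, hlt i⟩, Finset.mem_image.2 ⟨i, Finset.mem_univ _, rfl⟩, ?_⟩
        rw [inc_left]
        exact decide_eq_true rfl
      · refine ⟨⟨el S i, hlt i⟩, Finset.mem_image.2 ⟨i, Finset.mem_univ _, rfl⟩, ?_⟩
        rw [inc_right]
        exact decide_eq_true rfl

theorem dvd_H (S T : Fin k → Bool) (hk : 0 < k) :
    (run (uH S ++ vH T)).y ∣ (run (uH S ++ vH T)).x ↔ S ≠ T := by
  have h := dvd_text (insH S T)
  rw [holds_insH S T hk, text_insH] at h
  exact h

theorem length_rowT (l : List Bool) (p q : ℕ) : (rowT l p q).length = l.length + p + q + 2 := by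
  unfold rowT
  simp only [List.length_cons, List.length_append, List.length_map, List.length_replicate]
  omega

theorem length_flatMap_le {n c : ℕ} {f : ℕ → List Sy} (h : ∀ j, (f j).length ≤ c) :
    ((List.range n).flatMap f).length ≤ n * c := by
  induction n with
  | zero => simp
  | succ n ih =>
    rw [List.range_succ, List.flatMap_append, List.length_append, Nat.succ_mul]
    refine Nat.add_le_add ih ?_
    simpa using h n

theorem length_flatten_le {n c : ℕ} {f : Fin n → List Sy} (h : ∀ j, (f j).length ≤ c) :
    (List.ofFn f).flatten.length ≤ n * c := by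
  induction n with
  | zero => simp
  | succ n ih =>
    rw [List.ofFn_succ, List.flatten_cons, List.length_append, Nat.succ_mul, Nat.add_comm]
    exact Nat.add_le_add (ih fun j => h j.succ) (h 0)

theorem length_flatten_eq {n c : ℕ} {f : Fin n → List Sy} (h : ∀ j, (f j).length = c) :
    (List.ofFn f).flatten.length = n * c := by
  induction n with
  | zero => simp
  | succ n ih =>
    rw [List.ofFn_succ, List.flatten_cons, List.length_append, Nat.succ_mul, Nat.add_comm,
      ih fun j => h j.succ, h 0]

theorem length_uH (S T : Fin k → Bool) : (uH S).length = (uH T).length := by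
  have h1 : ∀ S : Fin k → Bool, (rowsH S).length =
      k * ((k + (k - 1) + 1) + 0 + (k + (k - 1) + 1) + 2) := by
    intro S
    refine length_flatten_eq fun j => ?_
    unfold rowH
    rw [length_rowT, List.length_ofFn]
  unfold uH
  rw [List.length_append, List.length_append, List.length_append, List.length_append, h1, h1]

theorem length_H (S T : Fin k → Bool) (hk : 0 < k) : (uH S ++ vH T).length ≤ 30 * k ^ 2 := by
  have e : k + (k - 1) + 1 = 2 * k := by omega
  have h1 : ∀ S : Fin k → Bool, (rowsH S).length ≤ k * (4 * k + 2) := by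
    intro S
    refine length_flatten_le fun j => ?_
    unfold rowH
    rw [length_rowT, List.length_ofFn]
    omega
  have h2 : ((List.range (k + (k - 1) + 1)).flatMap fun v =>
      rowT ((List.range (k + (k - 1) + 1)).map fun u => decide (u ≠ v)) 1 0).length ≤
      (k + (k - 1) + 1) * (2 * k + 3) := by
    refine length_flatMap_le fun j => ?_
    rw [length_rowT, List.length_map, List.length_range]
    omega
  have h3 : (rowT (List.replicate (k + (k - 1) + 1) true) 0 (k - 1)).length ≤ 3 * k + 1 := by
    rw [length_rowT, List.length_replicate]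
    omega
  have h4 := h1 S
  have h5 := h1 T
  rw [e] at h2 h3
  unfold uH vH
  rw [List.length_append, List.length_append, List.length_append, e]
  have h6 : (rowsH S).length + (rowsH T).length + (2 * k * (2 * k + 3) + (3 * k + 1)) ≤ 30 * k ^ 2 := by
    nlinarith
  omega

end Pool.Agent.S4L
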