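import Pool.Agent.S4L.Num
import Pool.Agent.S4L.Pad
import Pool.Agent.S4L.Cert
import Pool.Agent.S4L.Words
import Pool.Agent.S4L.WordsH

/-!
# Local certificates for the 4-sphere
-/

set_option autoImplicit false

namespace Pool.Agent.S4L

open Set Pool.Agent.S4H Pool.Agent.T4 Pool.Agent.Helper55 Pool.Agent.T4B

/-! ### Separators in the middle -/

theorem run_pad (u v : List Sy) (L : ℕ) (hv : ∃ w, v = Sy.sep :: w) :
    run (u ++ (List.replicate L Sy.sep ++ v)) = run (u ++ v) := by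
  obtain ⟨w, rfl⟩ := hv
  have key : ∀ (L : ℕ) (g : Rg), (Sy.sep :: w).foldl Rg.step
      ((List.replicate L Sy.sep).foldl Rg.step g) = (Sy.sep :: w).foldl Rg.step g := by
    intro L
    induction L with
    | zero => exact fun g => rfl
    | succ L ih =>
      intro g
      rw [List.replicate_succ, List.foldl_cons]
      exact ih (Rg.step g Sy.sep)
  unfold run
  rw [List.foldl_append, List.foldl_append, List.foldl_append]
  exact key L _

theorem vT_sep (T : List Bool) : ∃ w, vT T = Sy.sep :: w := ⟨_, rfl⟩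

theorem vH_sep {k : ℕ} (T : Fin k → Bool) (hk : 0 < k) : ∃ w, vH T = Sy.sep :: w := by
  obtain ⟨k, rfl⟩ : ∃ k', k = k' + 1 := ⟨k - 1, by omega⟩
  unfold vH rowsH
  rw [List.ofFn_succ, List.flatten_cons]
  exact ⟨_, rfl⟩

variable {B : ℕ}

theorem triN_pad {n : ℕ} {u : List Sy} (L : ℕ) (v : List Sy) (hu : u.length = n) :
    triN B (u ++ (List.replicate L Sy.sep ++ v)) = nA B u ++ nP B n L ++ nB B (n + L) v := by
  unfold triN
  rw [triangB_pad L v hu]
  unfold pA pP pB nA nP nB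
  simp only [List.map_append, List.map_flatMap]

/-! ### Families of words -/

variable (hS : BdT B tabS) (hE : BdT B tabE) (hM : ∀ a, BdT B (tabM a))

/-- The number of separators. -/
def Lr (r B : ℕ) : ℕ := (2 * r + 1) * (B + 1) + 1

include hS hE hM in
theorem cert_words {ι Λ : Type} [Finite Λ] {r n : ℕ} (u v : ι → List Sy)
    (hu : ∀ S, (u S).length = n) (V : Verifier r Λ)
    (hacc : ∀ S, V.Certifies (triN B (u S ++ (List.replicate (Lr r B) Sy.sep ++ v S))))
    (hrej : ∀ S T, V.Certifies (triN B (u S ++ (List.replicate (Lr r B) Sy.sep ++ v T))) →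
      V.Certifies (triN B (u T ++ (List.replicate (Lr r B) Sy.sep ++ v S))) → S = T) :
    Nat.card ι ≤ Nat.card Λ ^ Nat.card (Fin (Lr r B) × (Fin 5 → Fin (B + 1))) := by
  have e : ∀ S T, triN B (u S ++ (List.replicate (Lr r B) Sy.sep ++ v T)) =
      nA B (u S) ++ nP B n (Lr r B) ++ nB B (n + Lr r B) (v T) := fun S T =>
    triN_pad (Lr r B) (v T) (hu S)
  have hM0 : (0 : ℤ) < Mb B := by exact_mod_cast Mb_pos B
  have hW : (Wb B : ℤ) = (B + 1) * Mb B := by
    unfold Wb
    push_cast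
    ring
  have hd : ∀ {D : ℕ} {s : List ℕ}, InBlk B D s → ∀ x ∈ s, ∀ w ∈ s, (w : ℤ) ≤ (x : ℤ) + Wb B := by
    intro D s h x hx w hw
    exact_mod_cast h.le h le_rfl w hw x hx
  refine cert_fooling V (fun S => nA B (u S)) (fun S => nB B (n + Lr r B) (v S))
    (nP B n (Lr r B)) (fun w => (w : ℤ)) (Wb B)
    ((224 * n + B + 1) * Mb B + r * Wb B) (Int.natCast_nonneg _) ?_ ?_ ?_ ?_ ?_
    (fun x => num B (cQ n x)) ?_ ?_ ?_
  · intro S s hs
    obtain ⟨j, -, h⟩ := nA_blk hS hM hs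
    exact hd h
  · intro s hs
    obtain ⟨j, -, h⟩ := nP_blk hM hs
    exact hd h
  · intro S s hs
    obtain ⟨j, -, h⟩ := nB_blk hE hM hs
    exact hd h
  · intro S s hs w hw
    obtain ⟨j, hj, h⟩ := nA_blk hS hM hs
    have h1 := (h w hw).2
    rw [hu] at hj
    have h2 : (224 * j + B + 1) * Mb B ≤ (224 * n + B + 1) * Mb B :=
      Nat.mul_le_mul_right _ (by omega)
    have h3 : w < (224 * n + B + 1) * Mb B := lt_of_lt_of_le h1 h2
    have h4 : (w : ℤ) < (224 * n + B + 1) * Mb B := by exact_mod_cast h3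
    show (w : ℤ) < (224 * n + B + 1) * Mb B + r * Wb B - r * Wb B
    linarith
  · intro S s hs w hw
    obtain ⟨j, hj, h⟩ := nB_blk hE hM hs
    have h1 := (h w hw).1
    have h2 : (224 * (n + Lr r B)) * Mb B ≤ w :=
      (Nat.mul_le_mul_right _ (by omega)).trans h1
    have h3 : ((224 * (n + Lr r B)) * Mb B : ℤ) ≤ w := by exact_mod_cast h2
    have h4 : (Lr r B : ℤ) = (2 * r + 1) * (B + 1) + 1 := by
      unfold Lr
      push_cast
      ring
    show ((224 * n + B + 1) * Mb B + r * Wb B + r * Wb B : ℤ) < w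
    refine lt_of_lt_of_le ?_ h3
    rw [h4, hW]
    have h5 : (0 : ℤ) ≤ (2 * r + 1) * (B + 1) := by positivity
    have h6 : ((224 * n + B + 1) * Mb B + r * ((B + 1) * Mb B) + r * ((B + 1) * Mb B) : ℤ) =
        (224 * n + (2 * r + 1) * (B + 1)) * Mb B := by ring
    rw [h6]
    exact mul_lt_mul_of_pos_right (by linarith) hM0
  · intro s hs w hw _ _
    unfold nP at hs
    obtain ⟨j, hj, hs⟩ := mem_rangeFlatMap hs
    obtain ⟨s', hs', rfl⟩ := List.mem_map.1 hs
    obtain ⟨w', hw', rfl⟩ := List.mem_map.1 hw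
    obtain ⟨x, hx⟩ := cQ_surj hM n (Lr r B) s'
      (List.mem_flatMap.2 ⟨j, List.mem_range.2 hj, hs'⟩) w' hw'
    exact ⟨x, by rw [hx]⟩
  · intro S
    rw [← e]
    exact hacc S
  · intro S T h1 h2
    rw [← e] at h1 h2
    exact hrej S T h1 h2

/-! ### The four bounds -/

theorem card_bits (n : ℕ) : Nat.card (Fin n → Bool) = 2 ^ n := by
  rw [Nat.card_fun, Nat.card_fin, Nat.card_eq_fintype_card, Fintype.card_bool]

include hS hE hM in
theorem inp_text {C c N : ℕ} (hC : ∀ t : List Sy, (triangB t).length ≤ C * (t.length + 2))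
    (t : List Sy) (ht : t.length + 2 ≤ c * N) :
    S4G.Inp ((C + (224 + B + 1) * Mb B) * c * N) (Wb B) (triN B t) := by
  have h0 : (C + (224 + B + 1) * Mb B) * (t.length + 2) ≤ (C + (224 + B + 1) * Mb B) * c * N := by
    rw [mul_assoc]
    exact Nat.mul_le_mul_left _ ht
  obtain ⟨f1, f2, f3⟩ := triN_facts hS hE hM t
  refine ⟨⟨?_, fun s hs v hv => ?_⟩, triN_banded hS hE hM t, f1, ?_⟩
  · rw [triN_length]
    refine (hC t).trans (le_trans ?_ h0)
    exact Nat.mul_le_mul_right _ (Nat.le_add_right _ _)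
  · refine (triN_small hS hE hM t s hs v hv).trans_le (le_trans ?_ h0)
    exact Nat.mul_le_mul_right _ (Nat.le_add_left _ _)
  · by_cases h : (run t).y ∣ (run t).x
    · exact Or.inl (f2 h)
    · exact Or.inr (f3 h).1

/-- Abstract form of the lower bounds: `Acc` is the set of the inputs accepted by the device. -/
theorem device_acc {C N L n : ℕ} (hC : ∀ t : List Sy, (triangB t).length ≤ C * (t.length + 2))
    (hS : BdT B tabS) (hE : BdT B tabE) (hM : ∀ a, BdT B (tabM a))
    (hN : (C + (224 + B + 1) * Mb B) * (L + 8) * (n + 1) ≤ N) (Acc : List (List ℕ) → Prop)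
    (h : ∀ K, S4G.Inp N (Wb B) K → (Acc K ↔ S4G.IsS4 K)) :
    (∀ S : Fin n → Bool, (uT (List.ofFn S)).length = n + 3) ∧
    (∀ S : Fin n → Bool, Acc (triN B (uT (List.ofFn S) ++
      (List.replicate L Sy.sep ++ vT (List.ofFn S))))) ∧
    ∀ S T : Fin n → Bool, Acc (triN B (uT (List.ofFn S) ++
      (List.replicate L Sy.sep ++ vT (List.ofFn T)))) → Acc (triN B (uT (List.ofFn T) ++
      (List.replicate L Sy.sep ++ vT (List.ofFn S)))) → S = T := by
  have hu : ∀ S : Fin n → Bool, (uT (List.ofFn S)).length = n + 3 := fun S => by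
    unfold uT
    rw [length_rowT, List.length_ofFn]
  have hr : ∀ S T : Fin n → Bool,
      run (uT (List.ofFn S) ++ (List.replicate L Sy.sep ++ vT (List.ofFn T))) =
        run (uT (List.ofFn S) ++ vT (List.ofFn T)) := fun S T => run_pad _ _ _ (vT_sep _)
  have hin : ∀ S T : Fin n → Bool, S4G.Inp N (Wb B)
      (triN B (uT (List.ofFn S) ++ (List.replicate L Sy.sep ++ vT (List.ofFn T)))) := by
    intro S T
    have h1 := inp_text hS hE hM hC (c := L + 8) (N := n + 1)
      (uT (List.ofFn S) ++ (List.replicate L Sy.sep ++ vT (List.ofFn T))) (by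
        rw [List.length_append, List.length_append, List.length_replicate, hu]
        unfold vT
        rw [length_rowT, List.length_ofFn]
        nlinarith)
    exact ⟨h1.1.mono hN, h1.2⟩
  refine ⟨hu, fun S => ?_, fun S T h1 h2 => ?_⟩
  · have f := (triN_facts hS hE hM
      (uT (List.ofFn S) ++ (List.replicate L Sy.sep ++ vT (List.ofFn S)))).2.1
    rw [hr] at f
    exact (h _ (hin S S)).2 (f (dvd_uv _))
  · have key : ∀ S T : Fin n → Bool, Acc (triN B (uT (List.ofFn S) ++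
        (List.replicate L Sy.sep ++ vT (List.ofFn T)))) →
        (run (uT (List.ofFn S) ++ vT (List.ofFn T))).y ∣
          (run (uT (List.ofFn S) ++ vT (List.ofFn T))).x := by
      intro S T ha
      by_contra hd
      have f := (triN_facts hS hE hM
        (uT (List.ofFn S) ++ (List.replicate L Sy.sep ++ vT (List.ofFn T)))).2.2
      rw [hr] at f
      exact (f hd).2 ((h _ (hin S T)).1 ha)
    exact List.ofFn_injective (eq_of_dvd (S := List.ofFn S) (T := List.ofFn T) (by simp)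
      (key S T h1) (key T S h2))

theorem device_rej {C N L n : ℕ} (hC : ∀ t : List Sy, (triangB t).length ≤ C * (t.length + 2))
    (hS : BdT B tabS) (hE : BdT B tabE) (hM : ∀ a, BdT B (tabM a)) (hn : 0 < n)
    (hN : (C + (224 + B + 1) * Mb B) * (L + 32) * n ^ 2 ≤ N) (Acc : List (List ℕ) → Prop)
    (h : ∀ K, S4G.Inp N (Wb B) K → (Acc K ↔ ¬ S4G.IsS4 K)) :
    (∀ S : Fin n → Bool, (uH S).length = (uH (fun _ : Fin n => false)).length) ∧
    (∀ S : Fin n → Bool, Acc (triN B (uH S ++ (List.replicate L Sy.sep ++ vH S)))) ∧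
    ∀ S T : Fin n → Bool, Acc (triN B (uH S ++ (List.replicate L Sy.sep ++ vH T))) →
      Acc (triN B (uH T ++ (List.replicate L Sy.sep ++ vH S))) → S = T := by
  have hr : ∀ S T : Fin n → Bool,
      run (uH S ++ (List.replicate L Sy.sep ++ vH T)) = run (uH S ++ vH T) :=
    fun S T => run_pad _ _ _ (vH_sep _ hn)
  have hin : ∀ S T : Fin n → Bool, S4G.Inp N (Wb B)
      (triN B (uH S ++ (List.replicate L Sy.sep ++ vH T))) := by
    intro S T
    have h1 := inp_text hS hE hM hC (c := L + 32) (N := n ^ 2)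
      (uH S ++ (List.replicate L Sy.sep ++ vH T)) (by
        have h2 := length_H S T hn
        have h3 : 1 ≤ n ^ 2 := Nat.one_le_pow _ _ hn
        rw [List.length_append] at h2
        rw [List.length_append, List.length_append, List.length_replicate]
        nlinarith)
    exact ⟨h1.1.mono hN, h1.2⟩
  refine ⟨fun S => length_uH _ _, fun S => ?_, fun S T h1 _ => ?_⟩
  · have f := (triN_facts hS hE hM (uH S ++ (List.replicate L Sy.sep ++ vH S))).2.2
    rw [hr] at f
    exact (h _ (hin S S)).2 (f fun hd => (dvd_H S S hn).1 hd rfl).2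
  · by_contra hd
    have f := (triN_facts hS hE hM (uH S ++ (List.replicate L Sy.sep ++ vH T))).2.1
    rw [hr] at f
    exact (h _ (hin S T)).1 h1 (f ((dvd_H S T hn).2 hd))

theorem flat_le {C : ℕ} (f : ℕ → List (List ℕ)) (n : ℕ) (h : ∀ j, (f j).length ≤ C) :
    ((List.range n).flatMap f).length ≤ n * C := by
  induction n with
  | zero => simp
  | succ n ih =>
    rw [List.range_succ, List.flatMap_append, List.length_append, Nat.succ_mul]
    refine Nat.add_le_add ih ?_
    simpa using h n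

theorem exists_length : ∃ C, ∀ t : List Sy, (triangB t).length ≤ C * (t.length + 2) := by
  obtain ⟨C, h1, h2⟩ := S4G.lr_length
  refine ⟨2 * C, fun t => ?_⟩
  have e : triangB t = S4G.lft [] ++ S4G.rgt 0 t := by
    have := S4G.triangB_append [] t
    exact this
  rw [e, List.length_append]
  have h3 := h1 []
  have h4 := h2 0 t
  have h5 : C * (([] : List Sy).length + 1) = C := by simp
  have h6 : 2 * C * (t.length + 2) = C * (t.length + 1) + (C * (t.length + 1) + 2 * C) := by ring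
  omega

theorem cert_pow : ∃ W : ℕ, ∀ r : ℕ, ∃ c w : ℕ, 0 < c ∧ 0 < w ∧
    (∀ (n : ℕ) (Λ : Type) [Finite Λ] (V : Verifier r Λ),
      (∀ K, S4G.Inp (c * (n + 1)) W K → (V.Certifies K ↔ S4G.IsS4 K)) →
        2 ^ n ≤ Nat.card Λ ^ w) ∧
    ∀ (n : ℕ) (Λ : Type) [Finite Λ] (V : Verifier r Λ), 0 < n →
      (∀ K, S4G.Inp (c * n ^ 2) W K → (V.Certifies K ↔ ¬ S4G.IsS4 K)) →
        2 ^ n ≤ Nat.card Λ ^ w := by
  obtain ⟨C, hC⟩ := exists_length
  obtain ⟨B, hS, hE, hM⟩ := exists_bd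
  refine ⟨Wb B, fun r => ⟨(C + (224 + B + 1) * Mb B) * (Lr r B + 32),
    Nat.card (Fin (Lr r B) × (Fin 5 → Fin (B + 1))), ?_, ?_, ?_, ?_⟩⟩
  · have := Mb_pos B
    positivity
  · have : 0 < Lr r B := by
      unfold Lr
      positivity
    have : Nonempty (Fin (Lr r B) × (Fin 5 → Fin (B + 1))) := ⟨⟨⟨0, this⟩, fun _ => 0⟩⟩
    exact Nat.card_pos
  · intro n Λ _ V h
    obtain ⟨h1, h2, h3⟩ := device_acc (L := Lr r B) (n := n) hC hS hE hM
      (Nat.mul_le_mul_right _ (Nat.mul_le_mul_left _ (by omega))) (fun K => V.Certifies K) h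
    rw [← card_bits]
    exact cert_words hS hE hM _ _ h1 V h2 h3
  · intro n Λ _ V hn h
    obtain ⟨h1, h2, h3⟩ := device_rej (L := Lr r B) hC hS hE hM hn le_rfl
      (fun K => V.Certifies K) h
    rw [← card_bits]
    exact cert_words hS hE hM _ _ h1 V h2 h3

theorem inp_mono {N N' W W' : ℕ} (hN : N ≤ N') (hW : W ≤ W') {K : List (List ℕ)}
    (h : S4G.Inp N W K) : S4G.Inp N' W' K := by
  obtain ⟨h1, ⟨h2, h3⟩, h4⟩ := h
  refine ⟨h1.mono hN, ⟨fun s hs v hv w hw => (h2 s hs v hv w hw).trans (by omega), ?_⟩, h4⟩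
  exact h3.imp fun h v hv w hw => (h v hv w hw).trans (by omega)

/-- Certificates for the 4-sphere have linear length. -/
theorem cert : ∃ W₀ : ℕ, ∀ W, W₀ ≤ W → ∀ r : ℕ, ∃ c : ℕ, 0 < c ∧
    ∀ N : ℕ, c ≤ N → ∀ (Λ : Type) [Finite Λ] (V : Verifier r Λ),
      ((∀ K, S4G.Inp N W K → (V.Certifies K ↔ S4G.IsS4 K)) → 2 ^ (N / c) ≤ Nat.card Λ) ∧
      ((∀ K, S4G.Inp N W K → (V.Certifies K ↔ ¬ S4G.IsS4 K)) →
        2 ^ Nat.sqrt (N / c) ≤ Nat.card Λ) := by
  obtain ⟨W₀, h⟩ := cert_pow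
  refine ⟨W₀, fun W hW r => ?_⟩
  obtain ⟨c, w, hc, hw, h1, h2⟩ := h r
  refine ⟨2 * c * w ^ 2, by positivity, fun N hN Λ _ V => ⟨fun h => ?_, fun h => ?_⟩⟩
  · set m := N / (2 * c * w ^ 2) with hm
    have hpos : 0 < 2 * c * w ^ 2 := by positivity
    have hm1 : 1 ≤ m := (Nat.one_le_div_iff hpos).2 hN
    have hmN : 2 * c * w ^ 2 * m ≤ N := Nat.mul_div_le N _
    have hle : c * (w * m + 1) ≤ N := by
      refine le_trans ?_ hmN
      have e1 : w * m + 1 ≤ 2 * (w ^ 2 * m) := by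
        have e2 : w * m ≤ w ^ 2 * m := Nat.mul_le_mul_right _ (by nlinarith)
        have e3 : 1 ≤ w ^ 2 * m := Nat.mul_pos (by positivity) hm1
        omega
      calc c * (w * m + 1) ≤ c * (2 * (w ^ 2 * m)) := Nat.mul_le_mul_left _ e1
        _ = 2 * c * w ^ 2 * m := by ring
    have h3 := h1 (w * m) Λ V fun K hK => h K (inp_mono hle hW hK)
    rw [pow_mul, ← pow_mul, Nat.mul_comm, pow_mul] at h3
    exact (Nat.pow_le_pow_iff_left hw.ne').1 h3
  · set m := Nat.sqrt (N / (2 * c * w ^ 2)) with hm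
    have hpos : 0 < 2 * c * w ^ 2 := by positivity
    have hm1 : 1 ≤ m := by
      rw [hm, Nat.le_sqrt]
      exact (Nat.one_le_div_iff hpos).2 hN
    have hm2 : m * m ≤ N / (2 * c * w ^ 2) := Nat.sqrt_le _
    have hmN : 2 * c * w ^ 2 * (m * m) ≤ N :=
      (Nat.mul_le_mul_left _ hm2).trans (Nat.mul_div_le N _)
    have hle : c * (w * m) ^ 2 ≤ N := by
      refine le_trans ?_ hmN
      calc c * (w * m) ^ 2 = c * w ^ 2 * (m * m) := by ring
        _ ≤ 2 * (c * w ^ 2 * (m * m)) := by omega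
        _ = 2 * c * w ^ 2 * (m * m) := by ring
    have h3 := h2 (w * m) Λ V (Nat.mul_pos hw hm1) fun K hK => h K (inp_mono hle hW hK)
    rw [Nat.mul_comm, pow_mul] at h3
    exact (Nat.pow_le_pow_iff_left hw.ne').1 h3

end Pool.Agent.S4L
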