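import Pool.Agent.S4L.Pts
import Pool.Agent.S4G.Glue

/-!
# Small vertex numbers

The vertices of the triangulation of a text are renamed by numbers which grow linearly with the
position of the letter.
-/

set_option autoImplicit false

namespace Pool.Agent.S4L

open Set Pool.Agent.S4H Pool.Agent.T4 Pool.Agent.Helper55 Pool.Agent.T4B

/-- The number of a vertex. -/
def nm (B D : ℕ) (g : Fin 5 → ℕ) : ℕ :=
  ((((D + g 3) * (2 * B + 1) + (g 0 + B - g 3)) * (B + 1) + g 1) * (B + 1) + g 2) * (B + 1) + g 4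

/-- The number as a function of the code. -/
noncomputable def num (B v : ℕ) : ℕ :=
  (((((Real'.dec v 3 + 6) * (2 * B + 1) + ((Real'.dec v 0 + 6) + B - (Real'.dec v 3 + 6))) *
    (B + 1) + (Real'.dec v 1 + 6)) * (B + 1) + (Real'.dec v 2 + 6)) * (B + 1) +
      (Real'.dec v 4 + 6)).toNat

theorem dec_cdp (D : ℕ) (g : Fin 5 → ℕ) (r : Fin 5) :
    Real'.dec (cdp D D g) r = g r + (if r = 0 ∨ r = 3 then (D : ℤ) else 0) - 6 := by
  rw [← codn_pt 0 D D (by ring) g]
  unfold codn
  rw [Real'.dec_cod]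
  · unfold pt
    split_ifs <;> ring
  · intro r
    unfold pt
    have : (0 : ℤ) ≤ g r := Int.natCast_nonneg _
    have h2 : (0 : ℤ) ≤ (D : ℤ) := Int.natCast_nonneg _
    beta_reduce
    split_ifs <;> omega

theorem num_cdp (B D : ℕ) (g : Fin 5 → ℕ) (h : g 3 ≤ B) : num B (cdp D D g) = nm B D g := by
  unfold num nm
  rw [dec_cdp, dec_cdp, dec_cdp, dec_cdp, dec_cdp, if_pos (Or.inr rfl), if_pos (Or.inl rfl),
    if_neg (by decide), if_neg (by decide), if_neg (by decide)]
  have e : ((g 0 + B - g 3 : ℕ) : ℤ) = g 0 + B - g 3 := by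
    rw [Nat.cast_sub (by omega)]
    push_cast
    ring
  have e2 : (((((g 3 : ℤ) + D - 6 + 6) * (2 * B + 1) + ((g 0 + D - 6 + 6) + B - (g 3 + D - 6 + 6))) *
      (B + 1) + (g 1 + 0 - 6 + 6)) * (B + 1) + (g 2 + 0 - 6 + 6)) * (B + 1) + (g 4 + 0 - 6 + 6) =
      ((((((D + g 3) * (2 * B + 1) + (g 0 + B - g 3)) * (B + 1) + g 1) * (B + 1) + g 2) * (B + 1) +
        g 4 : ℕ) : ℤ) := by
    push_cast
    rw [e]
    ring
  rw [e2, Int.toNat_natCast]

theorem radix {n a b d e : ℕ} (hd : d < n) (he : e < n) (h : a * n + d = b * n + e) :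
    a = b ∧ d = e := by
  rcases lt_trichotomy a b with h1 | h1 | h1
  · have : (a + 1) * n ≤ b * n := Nat.mul_le_mul_right _ h1
    rw [Nat.succ_mul] at this
    omega
  · subst h1
    exact ⟨rfl, by omega⟩
  · have : (b + 1) * n ≤ a * n := Nat.mul_le_mul_right _ h1
    rw [Nat.succ_mul] at this
    omega

theorem nm_inj {B D D' : ℕ} {g g' : Fin 5 → ℕ} (hg : ∀ r, g r ≤ B) (hg' : ∀ r, g' r ≤ B)
    (h : nm B D g = nm B D' g') : cdp D D g = cdp D' D' g' := by
  unfold nm at h
  have b0 := hg 0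
  have b3 := hg 3
  have b0' := hg' 0
  have b3' := hg' 3
  obtain ⟨h, h4⟩ := radix (by have := hg 4; omega) (by have := hg' 4; omega) h
  obtain ⟨h, h2⟩ := radix (by have := hg 2; omega) (by have := hg' 2; omega) h
  obtain ⟨h, h1⟩ := radix (by have := hg 1; omega) (by have := hg' 1; omega) h
  obtain ⟨h3, h0⟩ := radix (by omega) (by omega) h
  have h0' : D + g 0 = D' + g' 0 := by omega
  unfold cdp
  rw [h4, h2, h1, h3, h0']

/-- The length of a unit. -/
def Mb (B : ℕ) : ℕ := (2 * B + 1) * ((B + 1) * ((B + 1) * (B + 1)))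

theorem Mb_pos (B : ℕ) : 0 < Mb B := by
  unfold Mb
  positivity

theorem nm_lo (B D : ℕ) (g : Fin 5 → ℕ) : D * Mb B ≤ nm B D g := by
  unfold nm Mb
  calc D * ((2 * B + 1) * ((B + 1) * ((B + 1) * (B + 1))))
      = (((D * (2 * B + 1)) * (B + 1)) * (B + 1)) * (B + 1) := by ring
    _ ≤ ((((D + g 3) * (2 * B + 1)) * (B + 1)) * (B + 1)) * (B + 1) := by
        gcongr
        exact Nat.le_add_right _ _
    _ ≤ _ := by
        refine le_trans ?_ (Nat.le_add_right _ _)
        refine Nat.mul_le_mul_right _ (le_trans ?_ (Nat.le_add_right _ _))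
        refine Nat.mul_le_mul_right _ (le_trans ?_ (Nat.le_add_right _ _))
        exact Nat.mul_le_mul_right _ (Nat.le_add_right _ _)

theorem nm_hi {B D : ℕ} {g : Fin 5 → ℕ} (hg : ∀ r, g r ≤ B) : nm B D g < (D + B + 1) * Mb B := by
  have step : ∀ {a b n d : ℕ}, a < b → d < n → a * n + d < b * n := by
    intro a b n d h1 h2
    have : (a + 1) * n ≤ b * n := Nat.mul_le_mul_right _ h1
    rw [Nat.succ_mul] at this
    omega
  have e : (D + B + 1) * Mb B = (((D + B + 1) * (2 * B + 1)) * (B + 1)) * (B + 1) * (B + 1) := by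
    unfold Mb
    ring
  rw [e]
  unfold nm
  have b0 := hg 0
  have b1 := hg 1
  have b2 := hg 2
  have b3 := hg 3
  have b4 := hg 4
  exact step (step (step (step (by omega) (by omega)) (by omega)) (by omega)) (by omega)

/-- The bandwidth. -/
def Wb (B : ℕ) : ℕ := (B + 1) * Mb B

/-- The vertices of the list `s` have numbers in the block with shift `D`. -/
def InBlk (B D : ℕ) (s : List ℕ) : Prop := ∀ w ∈ s, D * Mb B ≤ w ∧ w < (D + B + 1) * Mb B

theorem InBlk.le {B D D' : ℕ} {s t : List ℕ} (hs : InBlk B D s) (ht : InBlk B D' t)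
    (h : D ≤ D') : ∀ v ∈ s, ∀ w ∈ t, v ≤ w + Wb B := by
  intro v hv w hw
  have h1 := (hs v hv).2
  have h2 := (ht w hw).1
  have h3 : (D + B + 1) * Mb B ≤ D' * Mb B + Wb B := by
    unfold Wb
    rw [Nat.add_assoc, Nat.add_mul]
    exact Nat.add_le_add_right (Nat.mul_le_mul_right _ h) _
  omega

theorem mem_map_prt {B D : ℕ} {L : List (Fin 5 → Fin 5 → ℕ)} (hL : BdT B L) {s : List ℕ}
    (hs : s ∈ (prt D L).map (List.map (num B))) : InBlk B D s := by
  obtain ⟨s', hs', rfl⟩ := List.mem_map.1 hs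
  intro w hw
  obtain ⟨v, hv, rfl⟩ := List.mem_map.1 hw
  unfold prt at hs'
  obtain ⟨g, hg, rfl⟩ := List.mem_map.1 hs'
  obtain ⟨m, rfl⟩ := (List.mem_ofFn' _ _).1 hv
  have hgm : ∀ r, g m r ≤ B := fun r => hL g hg m r
  rw [num_cdp B D (g m) (hgm 3)]
  exact ⟨nm_lo _ _ _, nm_hi hgm⟩

/-- The triangulation with small vertex numbers. -/
noncomputable def triN (B : ℕ) (t : List Sy) : List (List ℕ) :=
  (triangB t).map (List.map (num B))

/-- The left part. -/
noncomputable def nA (B : ℕ) (u : List Sy) : List (List ℕ) :=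
  (prt 0 tabS).map (List.map (num B)) ++ (List.range u.length).flatMap fun j =>
    (prt (224 * j) (tabM (u.getD j Sy.sep))).map (List.map (num B))

/-- The separators in the middle. -/
noncomputable def nP (B n L : ℕ) : List (List ℕ) :=
  (List.range L).flatMap fun j => (prt (224 * (n + j)) (tabM Sy.sep)).map (List.map (num B))

/-- The right part. -/
noncomputable def nB (B n : ℕ) (v : List Sy) : List (List ℕ) :=
  ((List.range v.length).flatMap fun j =>
    (prt (224 * (n + j)) (tabM (v.getD j Sy.sep))).map (List.map (num B))) ++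
      (prt (224 * (n + v.length)) tabE).map (List.map (num B))

theorem mem_rangeFlatMap {n : ℕ} {f : ℕ → List (List ℕ)} {s : List ℕ}
    (hs : s ∈ (List.range n).flatMap f) : ∃ j < n, s ∈ f j := by
  obtain ⟨j, hj, h⟩ := List.mem_flatMap.1 hs
  exact ⟨j, List.mem_range.1 hj, h⟩

variable {B : ℕ} (hS : BdT B tabS) (hE : BdT B tabE) (hM : ∀ a, BdT B (tabM a))

include hS hM in
theorem nA_blk {u : List Sy} {s : List ℕ} (hs : s ∈ nA B u) :
    ∃ j, j ≤ u.length - 1 ∧ InBlk B (224 * j) s := by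
  rcases List.mem_append.1 hs with hs | hs
  · exact ⟨0, Nat.zero_le _, mem_map_prt hS hs⟩
  · obtain ⟨j, hj, hs⟩ := mem_rangeFlatMap hs
    exact ⟨j, by omega, mem_map_prt (hM _) hs⟩

include hM in
theorem nP_blk {n L : ℕ} {s : List ℕ} (hs : s ∈ nP B n L) :
    ∃ j < L, InBlk B (224 * (n + j)) s := by
  obtain ⟨j, hj, hs⟩ := mem_rangeFlatMap hs
  exact ⟨j, hj, mem_map_prt (hM _) hs⟩

include hE hM in
theorem nB_blk {n : ℕ} {v : List Sy} {s : List ℕ} (hs : s ∈ nB B n v) :
    ∃ j, j ≤ v.length ∧ InBlk B (224 * (n + j)) s := by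
  rcases List.mem_append.1 hs with hs | hs
  · obtain ⟨j, hj, hs⟩ := mem_rangeFlatMap hs
    exact ⟨j, hj.le, mem_map_prt (hM _) hs⟩
  · exact ⟨v.length, le_rfl, mem_map_prt hE hs⟩

theorem triN_eq (t : List Sy) : triN B t = nA B [] ++ nB B 0 t := by
  unfold triN triangB nA nB
  rw [List.map_append, List.map_append, List.map_flatMap]
  simp only [List.length_nil, List.range_zero, List.flatMap_nil, List.append_nil, Nat.zero_add]

include hS hE hM in
theorem triN_blk {t : List Sy} {s : List ℕ} (hs : s ∈ triN B t) :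
    ∃ j, j ≤ t.length ∧ InBlk B (224 * j) s := by
  rw [triN_eq] at hs
  rcases List.mem_append.1 hs with hs | hs
  · obtain ⟨j, hj, h⟩ := nA_blk hS hM hs
    exact ⟨j, by simpa using hj.trans (Nat.sub_le _ _ |>.trans (Nat.zero_le _)), h⟩
  · obtain ⟨j, hj, h⟩ := nB_blk hE hM hs
    rw [Nat.zero_add] at h
    exact ⟨j, hj, h⟩

/-- The lists are sorted. -/
theorem pairwise_blk {D : ℕ} {K : List (List ℕ)} (h : ∀ s ∈ K, InBlk B D s) :
    K.Pairwise fun s t => ∀ v ∈ s, ∀ w ∈ t, v ≤ w + Wb B :=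
  List.Pairwise.imp_of_mem (R := fun _ _ => True) (fun hs ht _ => (h _ hs).le (h _ ht) le_rfl)
    (List.pairwise_of_forall fun _ _ => trivial)

include hS hE hM in
theorem triN_banded (t : List Sy) : S4G.Swept (Wb B) (triN B t) := by
  constructor
  · intro s hs
    obtain ⟨j, -, h⟩ := triN_blk hS hE hM hs
    exact h.le h le_rfl
  · rw [triN_eq, List.pairwise_append]
    refine ⟨?_, ?_, ?_⟩
    · refine pairwise_blk (D := 0) fun s hs => ?_
      obtain ⟨j, hj, h⟩ := nA_blk hS hM hs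
      have : j = 0 := by simpa using hj
      rw [this] at h
      exact h
    · unfold nB
      rw [List.pairwise_append]
      refine ⟨?_, pairwise_blk fun s hs => mem_map_prt hE hs, ?_⟩
      · rw [List.pairwise_flatMap]
        refine ⟨fun j _ => pairwise_blk fun s hs => mem_map_prt (hM _) hs, ?_⟩
        refine List.Pairwise.imp ?_ (List.pairwise_lt_range (n := t.length))
        intro i j hij s hs s' hs'
        exact (mem_map_prt (hM _) hs).le (mem_map_prt (hM _) hs') (by omega)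
      · intro s hs s' hs'
        obtain ⟨j, hj, hs⟩ := mem_rangeFlatMap hs
        exact (mem_map_prt (hM _) hs).le (mem_map_prt hE hs') (by omega)
    · intro s hs s' hs'
      obtain ⟨i, hi, h⟩ := nA_blk hS hM hs
      obtain ⟨j, hj, h'⟩ := nB_blk hE hM hs'
      have : i = 0 := by simpa using hi
      exact h.le h' (by omega)

include hS hE hM in
theorem triN_small (t : List Sy) : ∀ s ∈ triN B t, ∀ v ∈ s,
    v < ((224 + B + 1) * Mb B) * (t.length + 2) := by
  intro s hs v hv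
  obtain ⟨j, hj, h⟩ := triN_blk hS hE hM hs
  have h1 := (h v hv).2
  have h2 : (224 * j + B + 1) * Mb B ≤ ((224 + B + 1) * (t.length + 2)) * Mb B := by
    refine Nat.mul_le_mul_right _ ?_
    nlinarith
  have h3 : ((224 + B + 1) * (t.length + 2)) * Mb B = ((224 + B + 1) * Mb B) * (t.length + 2) := by
    ring
  omega

include hS hE hM in
theorem num_injOn (t : List Sy) {s s' : List ℕ} (hs : s ∈ triangB t) (hs' : s' ∈ triangB t)
    {v w : ℕ} (hv : v ∈ s) (hw : w ∈ s') (h : num B v = num B w) : v = w := by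
  have key : ∀ s ∈ triangB t, ∀ v ∈ s, ∃ (D : ℕ) (g : Fin 5 → ℕ), (∀ r, g r ≤ B) ∧
      v = cdp D D g := by
    have k2 : ∀ (D : ℕ) (L : List (Fin 5 → Fin 5 → ℕ)), BdT B L → ∀ s ∈ prt D L, ∀ v ∈ s,
        ∃ (D : ℕ) (g : Fin 5 → ℕ), (∀ r, g r ≤ B) ∧ v = cdp D D g := by
      intro D L hL s hs v hv
      unfold prt at hs
      obtain ⟨g, hg, rfl⟩ := List.mem_map.1 hs
      obtain ⟨m, rfl⟩ := (List.mem_ofFn' _ _).1 hv
      exact ⟨D, g m, fun r => hL g hg m r, rfl⟩
    intro s hs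
    unfold triangB at hs
    rcases List.mem_append.1 hs with hs | hs
    · exact k2 _ _ hS s hs
    · rcases List.mem_append.1 hs with hs | hs
      · obtain ⟨j, -, hs⟩ := mem_rangeFlatMap hs
        exact k2 _ _ (hM _) s hs
      · exact k2 _ _ hE s hs
  obtain ⟨D, g, hg, rfl⟩ := key s hs v hv
  obtain ⟨D', g', hg', rfl⟩ := key s' hs' w hw
  rw [num_cdp B D g (hg 3), num_cdp B D' g' (hg' 3)] at h
  exact nm_inj hg hg' h

include hS hE hM in
theorem triN_facts (t : List Sy) : S4G.Mfd (triN B t) ∧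
    ((run t).y ∣ (run t).x → S4G.IsS4 (triN B t)) ∧
    (¬ (run t).y ∣ (run t).x → ¬ SimplyConnectedSpace (Cx (triN B t)) ∧ ¬ S4G.IsS4 (triN B t)) := by
  obtain ⟨f1, f2, f3⟩ := S4G.top_text t
  have hr : run (.sep :: .sep :: t) = run t := rfl
  rw [hr] at f2 f3
  obtain ⟨r1, r2, r3⟩ := S4G.ren_facts (K := triangB t) (f := num B)
    fun s hs s' hs' v hv w hw h => num_injOn hS hE hM t hs hs' hv hw h
  exact ⟨r1 f1, fun h => r2.1 (f2 h), fun h => ⟨fun h' => (f3 h).1 (r3 h'),
    fun h' => (f3 h).2 (r2.2 h')⟩⟩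

theorem triN_length (t : List Sy) : (triN B t).length = (triangB t).length := by
  unfold triN
  rw [List.length_map]

end Pool.Agent.S4L
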