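import Pool.Agent.T4.Real
import Pool.Agent.T4B.Defs

/-!
# The codes of the vertices
-/

set_option autoImplicit false

namespace Pool.Agent.S4L

open Pool.Agent.S4H Pool.Agent.T4 Pool.Agent.T4B

/-- The point `g`, moved by `D` in the directions `0`, `3`. -/
def pt (D : ℤ) (g : Fin 5 → ℕ) : Cell := fun r => (g r : ℤ) + if r = 0 ∨ r = 3 then D else 0

/-- The code of a point, moved by `224 n`. -/
def codn (n : ℤ) (p : Cell) : ℕ := cod fun r => p r + (if r = 0 ∨ r = 3 then 224 * n else 0) - 6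

theorem codn_pt (n D : ℤ) (D' : ℕ) (h : (D' : ℤ) = D + 224 * n) (g : Fin 5 → ℕ) :
    codn n (pt D g) = cdp D' D' g := by
  unfold codn cod cdp cdn
  have h0 : (pt D g 0 + (if (0 : Fin 5) = 0 ∨ (0 : Fin 5) = 3 then 224 * n else 0) - 6 + 6).toNat =
      D' + g 0 := by
    have : pt D g 0 = g 0 + D := rfl
    rw [this, if_pos (Or.inl rfl)]
    omega
  have h1 : (pt D g 1 + (if (1 : Fin 5) = 0 ∨ (1 : Fin 5) = 3 then 224 * n else 0) - 6 + 6).toNat =
      g 1 := by
    have : pt D g 1 = g 1 + 0 := rfl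
    rw [this, if_neg (by decide)]
    omega
  have h2 : (pt D g 2 + (if (2 : Fin 5) = 0 ∨ (2 : Fin 5) = 3 then 224 * n else 0) - 6 + 6).toNat =
      g 2 := by
    have : pt D g 2 = g 2 + 0 := rfl
    rw [this, if_neg (by decide)]
    omega
  have h3 : (pt D g 3 + (if (3 : Fin 5) = 0 ∨ (3 : Fin 5) = 3 then 224 * n else 0) - 6 + 6).toNat =
      D' + g 3 := by
    have : pt D g 3 = g 3 + D := rfl
    rw [this, if_pos (Or.inr rfl)]
    omega
  have h4 : (pt D g 4 + (if (4 : Fin 5) = 0 ∨ (4 : Fin 5) = 3 then 224 * n else 0) - 6 + 6).toNat =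
      g 4 := by
    have : pt D g 4 = g 4 + 0 := rfl
    rw [this, if_neg (by decide)]
    omega
  congr 1
  simp only [List.ofFn_succ, List.ofFn_zero]
  rw [← h0, ← h1, ← h2, ← h3, ← h4]
  rfl

/-- All numbers of the tables are at most `B`. -/
def BdT (B : ℕ) (L : List (Fin 5 → Fin 5 → ℕ)) : Prop := ∀ g ∈ L, ∀ m r, g m r ≤ B

theorem exists_bdT (L : List (Fin 5 → Fin 5 → ℕ)) : ∃ B, BdT B L := by
  induction L with
  | nil => exact ⟨0, fun g hg => absurd hg (by simp)⟩
  | cons g L ih =>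
    obtain ⟨B, hB⟩ := ih
    refine ⟨B + ∑ m, ∑ r, g m r, fun g' hg' m r => ?_⟩
    rcases List.mem_cons.1 hg' with rfl | h
    · have h1 : g' m r ≤ ∑ r, g' m r :=
        Finset.single_le_sum (f := fun r => g' m r) (fun _ _ => Nat.zero_le _) (Finset.mem_univ r)
      have h2 : (∑ r, g' m r) ≤ ∑ m, ∑ r, g' m r :=
        Finset.single_le_sum (f := fun m => ∑ r, g' m r) (fun _ _ => Nat.zero_le _)
          (Finset.mem_univ m)
      omega
    · exact (hB g' h m r).trans (Nat.le_add_right _ _)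

theorem exists_bd : ∃ B, BdT B tabS ∧ BdT B tabE ∧ ∀ a, BdT B (tabM a) := by
  obtain ⟨B1, h1⟩ := exists_bdT tabS
  obtain ⟨B2, h2⟩ := exists_bdT tabE
  choose B3 h3 using fun a => exists_bdT (tabM a)
  refine ⟨B1 + (B2 + (B3 .zero + (B3 .one + (B3 .sep + (B3 .pos + B3 .neg))))), ?_, ?_, ?_⟩
  · exact fun g hg m r => (h1 g hg m r).trans (by omega)
  · exact fun g hg m r => (h2 g hg m r).trans (by omega)
  · intro a g hg m r
    refine (h3 a g hg m r).trans ?_
    cases a <;> omega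

end Pool.Agent.S4L
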